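import Pool.Agent.TH954.Y.Fin3
import Pool.Agent.TH954.Y.Zeros
import Pool.Agent.TH954.Y.Zdim
import Pool.Agent.TH954.Y.Tuple
import Pool.Agent.TH954.Y.Om
import Pool.Agent.TH954.Y.Pack
import Pool.Agent.TH954.Y.Gform
import Pool.Agent.TH954.Y.Comb
import Pool.Agent.TH954.Y.Red
import Pool.Agent.TH954.Y.Low

/-!
# Vojta's inequality for almost all rational points of varieties over products of elliptic curves
-/

set_option autoImplicit false

open MvPolynomial NumberField

namespace Pool.Agent.Results.MP_8865d3_nt.AlmostAllPoints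

/-- the elliptic curve `y² = x³ + a x + b` -/
def E {F : Type} [Field F] (a b : F) : WeierstrassCurve F := ⟨0, 0, 0, a, b⟩

/-- homogeneous coordinates `(z, x, y)` of a point in the projective plane: `(0, 0, 1)` for the
point at infinity, `(1, x, y)` for the others -/
def coords {F : Type} [Field F] {W : WeierstrassCurve F} : W.toAffine.Point → Fin 3 → F
  | .zero => ![0, 0, 1]
  | .some x y _ => ![1, x, y]

/-- `v` is the coordinate vector of a point over `F` of the curve `y² = x³ + a x + b` over `K` -/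
def OnE {K : Type} [Field K] (a b : K) {F : Type} [Field F] [Algebra K F] (v : Fin 3 → F) : Prop :=
  v = ![0, 0, 1] ∨ ∃ x y : F, v = ![1, x, y] ∧
    y ^ 2 = x ^ 3 + algebraMap K F a * x + algebraMap K F b

/-- the coordinates of the point `(t, u)` of the product of `ℙ ^ (n - 1)` and of `k` projective
planes: the group `none` is `t`, the group `some i` is `u i` with zeros added -/
def point {F : Type} [Field F] {k n : ℕ} (t : Fin n → F) (u : Fin k → Fin 3 → F) :
    Option (Fin k) → Fin n → F :=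
  fun o => Option.elim o t (fun i c => if h : c.1 < 3 then u i ⟨c.1, h⟩ else 0)

/-- `f` is multihomogeneous of multidegree `d` in the groups of `n` variables indexed by `ι` -/
def MultiHom {K : Type} [Field K] {ι : Type} {n : ℕ} (d : ι → ℕ) (f : MvPolynomial (ι × Fin n) K) :
    Prop :=
  ∀ m ∈ f.support, ∀ j, ∑ c, m (j, c) = d j

/-- value of a form at a family of vectors over an extension field -/
noncomputable def value {K F : Type} [Field K] [Field F] [Algebra K F] {ι : Type} {n : ℕ}
    (f : MvPolynomial (ι × Fin n) K) (x : ι → Fin n → F) : F :=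
  aeval (fun p : ι × Fin n => x p.1 p.2) f

/-- the image in `∏ E (a i) (b i)` of the closed subset `f = 0` of `X : g = 0`, `X` closed in
`ℙ ^ (n - 1) × ∏ E (a i) (b i)`, has codimension at least `c`: for each field extension `F` of `K`
and every point `(t, u)` over `F` of this subset, the coordinates of `u` generate an extension of `K`
of transcendence degree at most `k - c` -/
def ImageCodim {K : Type} [Field K] {k n : ℕ} (a b : Fin k → K) {E1 E2 : Type}
    (g : E1 → MvPolynomial (Option (Fin k) × Fin n) K)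
    (f : E2 → MvPolynomial (Option (Fin k) × Fin n) K) (c : ℕ) : Prop :=
  ∀ (F : Type) [Field F] [Algebra K F] (t : Fin n → F) (u : Fin k → Fin 3 → F), t ≠ 0 →
    (∀ i, OnE (a i) (b i) (u i)) → (∀ i, value (g i) (point t u) = 0) →
    (∀ i, value (f i) (point t u) = 0) →
    Algebra.trdeg K (IntermediateField.adjoin K
      (Set.range (fun p : Fin k × Fin 3 => u p.1 p.2))) + (c : Cardinal) ≤ (k : Cardinal)

/-- the local height of `x` with respect to the subscheme `f = 0`, where `f i` has multidegree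
`δ i`: minus the logarithm of `max_i |f i (x)|_v / ∏_j |x_j|_v ^ (δ i j)`, with `|x_j|_v` the maximum
of the absolute values of the coordinates of `x_j` -/
noncomputable def lambda {K ι : Type} [Field K] [Fintype ι] {n : ℕ} {E' : Type}
    (δ : E' → ι → ℕ) (f : E' → MvPolynomial (ι × Fin n) K) (x : ι → Fin n → K)
    (v : AbsoluteValue K ℝ) : ℝ :=
  -Real.log (⨆ i, v (value (f i) x) / ∏ j, (⨆ c, v (x j c)) ^ δ i j)

/-- the height with respect to the subscheme `f = 0`: the sum of the local heights over all places -/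
noncomputable def height {K ι : Type} [Field K] [NumberField K] [Fintype ι] {n : ℕ} {E' : Type}
    (δ : E' → ι → ℕ) (f : E' → MvPolynomial (ι × Fin n) K) (x : ι → Fin n → K) : ℝ :=
  ∑ w : InfinitePlace K, (w.mult : ℝ) * lambda δ f x w.val +
    ∑ᶠ v : FinitePlace K, lambda δ f x v.val

/-- the proximity function: the sum of the local heights over the places in `S = S1 ∪ S2` -/
noncomputable def proximity {K ι : Type} [Field K] [NumberField K] [Fintype ι] {n : ℕ} {E' : Type}
    (δ : E' → ι → ℕ) (f : E' → MvPolynomial (ι × Fin n) K) (S1 : Finset (InfinitePlace K))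
    (S2 : Finset (FinitePlace K)) (x : ι → Fin n → K) : ℝ :=
  ∑ w ∈ S1, (w.mult : ℝ) * lambda δ f x w.val + ∑ v ∈ S2, lambda δ f x v.val

/-- the points `P` of `∏ Γ i` all of whose components have logarithmic height at most `T` -/
def Ball {K : Type} [Field K] [NumberField K] [DecidableEq K] {k : ℕ} {a b : Fin k → K}
    (Γ : ∀ i, AddSubgroup (E (a i) (b i)).toAffine.Point) (T : ℝ) :
    Set (∀ i, (E (a i) (b i)).toAffine.Point) :=
  {P | ∀ i, P i ∈ Γ i ∧ Height.logHeight (coords (P i)) ≤ T}

/-- the exceptional points of the ball: there is a rational point `x = (t, P)` of `X : g = 0` over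
`P` which is in `W : fW = 0` or in `D : fD = 0` or does not satisfy the inequality
`h_W(x) + m_{S,D}(x) ≤ ε ∑ h(P_i)` -/
def Exceptions {K : Type} [Field K] [NumberField K] [DecidableEq K] {k n : ℕ} {a b : Fin k → K}
    (Γ : ∀ i, AddSubgroup (E (a i) (b i)).toAffine.Point) {E1 E2 E3 : Type}
    (g : E1 → MvPolynomial (Option (Fin k) × Fin n) K)
    (fW : E2 → MvPolynomial (Option (Fin k) × Fin n) K) (δW : E2 → Option (Fin k) → ℕ)
    (fD : E3 → MvPolynomial (Option (Fin k) × Fin n) K) (δD : E3 → Option (Fin k) → ℕ)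
    (S1 : Finset (InfinitePlace K)) (S2 : Finset (FinitePlace K)) (ε T : ℝ) :
    Set (∀ i, (E (a i) (b i)).toAffine.Point) :=
  {P | P ∈ Ball Γ T ∧ ∃ t : Fin n → K, t ≠ 0 ∧
    (∀ i, value (g i) (point t (fun j => coords (P j))) = 0) ∧
    ((∀ i, value (fW i) (point t (fun j => coords (P j))) = 0) ∨
      (∀ i, value (fD i) (point t (fun j => coords (P j))) = 0) ∨
      ε * ∑ i, Height.logHeight (coords (P i)) <
        height δW fW (point t (fun j => coords (P j))) +
          proximity δD fD S1 S2 (point t (fun j => coords (P j))))}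

lemma onE_of_onC {K : Type} [Field K] (a b : K) {F : Type} [Field F] [Algebra K F] (v : Fin 3 → F)
    (h : Pool.Agent.TH954.Y.OnC a b v) : OnE a b v := by
  obtain ⟨⟨i, hi, hj⟩, h2⟩ := h
  have h3 : v 2 ^ 2 * v 0 - (v 1 ^ 3 + algebraMap K F a * v 1 * v 0 ^ 2 +
      algebraMap K F b * v 0 ^ 3) = 0 := by
    simpa [Pool.Agent.TH954.X.We.eqn] using h2
  fin_cases i
  · right
    have h0 : v 0 = 1 := hi
    refine ⟨v 1, v 2, ?_, ?_⟩
    · funext c
      fin_cases c
      · exact h0
      · rfl
      · rfl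
    · rw [h0] at h3
      linear_combination h3
  · exfalso
    have h0 : v 0 = 0 := hj 0 (by decide)
    have h1 : v 1 = 1 := hi
    rw [h0, h1] at h3
    simp at h3
  · left
    have h0 : v 0 = 0 := hj 0 (by decide)
    have h1 : v 1 = 0 := hj 1 (by decide)
    funext c
    fin_cases c
    · exact h0
    · exact h1
    · exact hi

/-- Let `K` be a number field, `B = ∏ E_i` a product of `k ≥ 2` elliptic curves over `K`,
`Γ i` subgroups of `E_i(K)` of ranks `r_i ≥ m`, `X` a closed subset of `ℙ ^ (n - 1) × B`, `W` and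
`D` closed subschemes of `X` whose images in `B` have codimension at least two and at least one,
`S` a finite set of places and `ε > 0`. Then, for `T ≥ 1`, the number of points of `∏ Γ i` of height
at most `T` has the order of magnitude `T ^ (∑ r_i / 2)`, and the inequality
`h_W(x) + m_{S,D}(x) ≤ ε h(P)` holds for all rational points `x` of `X` over all but
`C T ^ ((∑ r_i - m) / 2)` of the points `P`. -/
theorem result : ∀ (K : Type) [Field K] [NumberField K] [DecidableEq K] (k n : ℕ), 2 ≤ k → 3 ≤ n →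
    ∀ (a b : Fin k → K), (∀ i, 4 * a i ^ 3 + 27 * b i ^ 2 ≠ 0) →
    ∀ (Γ : ∀ i, AddSubgroup (E (a i) (b i)).toAffine.Point) (m : ℕ),
      (∀ i, m ≤ Module.finrank ℤ (Γ i)) →
    ∀ (E1 E2 E3 : Type) [Fintype E1] [Fintype E2] [Fintype E3]
      (g : E1 → MvPolynomial (Option (Fin k) × Fin n) K)
      (fW : E2 → MvPolynomial (Option (Fin k) × Fin n) K) (δW : E2 → Option (Fin k) → ℕ)
      (fD : E3 → MvPolynomial (Option (Fin k) × Fin n) K) (δD : E3 → Option (Fin k) → ℕ),
      (∀ i, ∃ γ, MultiHom γ (g i)) → (∀ i, MultiHom (δW i) (fW i)) →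
      (∀ i, MultiHom (δD i) (fD i)) → ImageCodim a b g fW 2 → ImageCodim a b g fD 1 →
    ∀ (S1 : Finset (InfinitePlace K)) (S2 : Finset (FinitePlace K)) (ε : ℝ), 0 < ε →
    ∃ C : ℝ, 0 < C ∧ ∀ T : ℝ, 1 ≤ T → (Ball Γ T).Finite ∧
      C⁻¹ * T ^ ((∑ i, (Module.finrank ℤ (Γ i) : ℝ)) / 2) ≤ ((Ball Γ T).ncard : ℝ) ∧
      ((Ball Γ T).ncard : ℝ) ≤ C * T ^ ((∑ i, (Module.finrank ℤ (Γ i) : ℝ)) / 2) ∧
      ((Exceptions Γ g fW δW fD δD S1 S2 ε T).ncard : ℝ) ≤
        C * T ^ ((∑ i, (Module.finrank ℤ (Γ i) : ℝ) - m) / 2) := by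
  intro K _ _ _ k n hk hn a b hd Γ m hr E1 E2 E3 _ _ _ g fW δW fD δD hg hW hD hcW hcD S1 S2 ε hε
  exact Pool.Agent.TH954.Y.fin3 (Pool.Agent.TH954.Y.tuple_of Pool.Agent.TH954.Y.zeros)
    (Pool.Agent.TH954.Y.zdim_of Pool.Agent.TH954.Y.zeros) Pool.Agent.TH954.Y.gform
    Pool.Agent.TH954.Y.comb Pool.Agent.TH954.Y.red Pool.Agent.TH954.Y.om Pool.Agent.TH954.Y.pack
    Pool.Agent.TH954.Y.low hk hn a b hd Γ m hr g hg fW δW hW fD δD hD
    (fun F _ _ t u ht hu h1 h2 => hcW F t u ht (fun i => onE_of_onC _ _ _ (hu i)) h1 h2)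
    (fun F _ _ t u ht hu h1 h2 => hcD F t u ht (fun i => onE_of_onC _ _ _ (hu i)) h1 h2)
    S1 S2 ε hε

end Pool.Agent.Results.MP_8865d3_nt.AlmostAllPoints
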