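import Pool.Agent.TH910.Voj.NormMain

/-!
# Vojta's inequality at the points of degree `N` of every cover of degree `N` of `ℙⁿ`

Let `X` be a normal variety over `ℚ`, of any dimension `n`, and `π : X → ℙⁿ` a finite morphism of
degree `N`. Its homogeneous coordinate ring `A = ⊕ H⁰(X, π^* O(m))` is a normal domain, finite and
of rank `N` over `ℚ[x_0, …, x_n]`. For an irreducible form `F_j` of degree `k_j` let `s_j` be the
degree over `F_j = 0` of the reduced preimage of `F_j = 0` in `X` (so `s_j = N` if `F_j = 0` is not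
a component of the branch divisor, and `s_j = N - 1` if the branching is simple). The push-forward
of the ramification divisor `R` of `π` is the sum of the divisors `(N - s_j) {F_j = 0}`.

If `K` is the residue field of a closed point `P` of `X` over `x ∈ ℙⁿ(ℚ)` and `[K : ℚ] = N` (by
Hilbert's irreducibility theorem this is so for almost all `x`), the conjugates of `P` are the
points of `X` over `x`, hence `h_R(P) = ∑ k_j (1 - s_j / N) h(x) + O(1)`. Likewise, let `I ≠ 0` be
an ideal sheaf on `X` and `G ≠ 0` a form on `ℙⁿ` of degree `d` whose pull-back lies in `I(d)` (such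
a `G` exists: take the norm of a section of `I(m)`). As `G` is one of the local generators in the
minimum which defines `λ_I`, the sum of `λ_I(P, v)` over `v ∈ S` is at most `m_S(G, x) + O(1)`. The
multiplier ideal `I⁻` only helps, as `λ_{I⁻}` is bounded below.

We prove that if the branch divisor consists of hyperplanes and quadrics (and forms of higher degree
with few coincidences), then for almost all `x`, with a power-saving set of exceptions,
`m_S(G, x) + κ log B ≤ d(K)` for each `κ < ∑ k_j (1 - s_j / N)`. This is Vojta's inequality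
`h_{K_X}(P) + ∑_{v ∈ S} λ_I(P, v) - ∑_{v ∈ S} λ_{I⁻}(P, v) ≤ d(P) + ε h(P) + O(1)`, for all ideals
`I` at once, even with the ramification divisor `R = K_X + (n + 1) H` in place of `K_X`. Components
of the branch divisor may be left out; the inequality for `K_X` follows as long as the sum of
`k_j (1 - s_j / N)` over these is less than `n + 1`.
-/

set_option autoImplicit false

namespace Pool.Agent.Results.MP_8865d3_nt.EveryCover

open MvPolynomial

/-- The reduced preimage in `Spec A` of the prime divisor `F = 0` of `Spec R` has degree at most `s`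
over it: after inverting an element `g` of `R` not divisible by `F`, the `R`-module `A / √(F A)` is
generated by `s` elements. -/
def SheetsLE {R : Type} (A : Type) [CommRing R] [CommRing A] [Algebra R A] (F : R) (s : ℕ) : Prop :=
  ∃ g : R, ¬ F ∣ g ∧ ∃ a : Fin s → A, ∀ b : A, ∃ r : Fin s → R,
    algebraMap R A g * b - ∑ l, algebraMap R A (r l) * a l ∈
      (Ideal.span {algebraMap R A F}).radical

/-- A form `F` of degree `k` in `n` variables has few coincidences if, for each `δ > 0`, it takes
the same value at no more than `C B ^ (2 n - k + δ)` pairs of integer vectors with entries at most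
`B` in absolute value. -/
def FewCoincidences {n : ℕ} (F : MvPolynomial (Fin n) ℤ) (k : ℕ) : Prop :=
  ∀ δ : ℝ, 0 < δ → ∃ C : ℝ, ∀ B : ℕ, 1 ≤ B →
    (Set.ncard {z : (Fin n → ℤ) × (Fin n → ℤ) | (∀ i, |z.1 i| ≤ B) ∧ (∀ i, |z.2 i| ≤ B) ∧
      eval z.1 F = eval z.2 F} : ℝ) ≤ C * (B : ℝ) ^ (2 * (n : ℝ) - k + δ)

/-- The logarithmic discriminant of a number field (over `ℚ`). -/
noncomputable def logDisc (K : Type) [Field K] [NumberField K] : ℝ :=
  Real.log |(NumberField.discr K : ℝ)| / Module.finrank ℚ K

/-- The proximity function of the divisor `G = 0` of projective space, `G` a form of degree `d`,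
with respect to the real place and the primes in `S`:
`d log max |x_i| - log |G(x)| + ∑_{p ∈ S} v_p(G(x)) log p`. -/
noncomputable def proximity {n : ℕ} (G : MvPolynomial (Fin n) ℤ) (d : ℕ) (S : Finset ℕ)
    (x : Fin n → ℤ) : ℝ :=
  d * Real.log (Finset.univ.sup fun i => (x i).natAbs : ℕ) - Real.log |(eval x G : ℝ)| +
    ∑ p ∈ S, padicValInt p (eval x G) * Real.log p

/-- **Vojta's inequality at the points of degree `N` over almost all rational points, for every
cover of degree `N`.** -/
theorem result (n : ℕ) (A : Type) [CommRing A] [IsDomain A] [IsIntegrallyClosed A]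
    [Algebra (MvPolynomial (Fin (n + 1)) ℚ) A] [FaithfulSMul (MvPolynomial (Fin (n + 1)) ℚ) A]
    [Module.Finite (MvPolynomial (Fin (n + 1)) ℚ) A]
    (N : ℕ) (hN : Module.finrank (MvPolynomial (Fin (n + 1)) ℚ) A = N)
    -- components of the branch divisor
    (q : ℕ) (F : Fin q → MvPolynomial (Fin (n + 1)) ℤ) (k s : Fin q → ℕ)
    (hhom : ∀ j, (F j).IsHomogeneous (k j))
    (hirr : ∀ j, Irreducible (map (Int.castRingHom ℚ) (F j)))
    (hdist : ∀ i j, i ≠ j →
      ¬ Associated (map (Int.castRingHom ℚ) (F i)) (map (Int.castRingHom ℚ) (F j)))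
    (hfew : ∀ j, k j ≤ 2 ∨ FewCoincidences (F j) (k j))
    (hsN : ∀ j, s j ≤ N) (hs : ∀ j, SheetsLE A (map (Int.castRingHom ℚ) (F j)) (s j))
    -- an arbitrary divisor and finitely many places
    (G : MvPolynomial (Fin (n + 1)) ℤ) (d : ℕ) (hG : G.IsHomogeneous d) (hG0 : G ≠ 0)
    (S : Finset ℕ) (hS : ∀ p ∈ S, p.Prime)
    (κ : ℝ) (hκ : κ < ∑ j, (k j : ℝ) * (1 - (s j : ℝ) / N)) :
    ∃ c : ℝ, 0 < c ∧ ∃ C : ℝ, ∀ B : ℕ, 1 ≤ B →
      (Set.ncard {x : Fin (n + 1) → ℤ | (∀ i, |x i| ≤ B) ∧
        ∃ (K : Type) (_ : Field K) (_ : NumberField K) (φ : A →+* K),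
          Function.Surjective φ ∧ Module.finrank ℚ K = N ∧
          (∀ i, φ (algebraMap (MvPolynomial (Fin (n + 1)) ℚ) A (X i)) = x i) ∧
          logDisc K < κ * Real.log B + proximity G d S x} : ℝ) ≤
        C * (B : ℝ) ^ ((n : ℝ) + 1 - c) := by
  obtain ⟨c, hc, C, -, h⟩ := TH910.Voj.main_norm (A := A) N hN F k s hhom hirr hdist hfew hsN hs
    G d hG hG0 S hS κ hκ
  refine ⟨c, hc, C, fun B hB => ?_⟩
  have h1 := h B hB
  push_cast at h1
  refine le_trans ?_ h1
  have h2 : {x : Fin (n + 1) → ℤ | (∀ i, |x i| ≤ B) ∧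
        ∃ (K : Type) (_ : Field K) (_ : NumberField K) (φ : A →+* K),
          Function.Surjective φ ∧ Module.finrank ℚ K = N ∧
          (∀ i, φ (algebraMap (MvPolynomial (Fin (n + 1)) ℚ) A (X i)) = x i) ∧
          logDisc K < κ * Real.log B + proximity G d S x} ⊆
      {x | x ∈ TH910.Voj.box (n + 1) B ∧ ∃ (K : Type) (_ : Field K) (_ : NumberField K)
        (φ : A →+* K), Function.Surjective φ ∧ Module.finrank ℚ K = N ∧
        (∀ i, φ (algebraMap (MvPolynomial (Fin (n + 1)) ℚ) A (X i)) = x i) ∧
        Real.log |(NumberField.discr K : ℝ)| / N <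
          κ * Real.log B + TH910.Voj.proximity G d S x} := by
    rintro x ⟨hx, K, iF, iN, φ, hφ, hK, hφx, hlt⟩
    refine ⟨TH910.Voj.mem_box.mpr hx, K, iF, iN, φ, hφ, hK, hφx, ?_⟩
    unfold logDisc at hlt
    rw [hK] at hlt
    exact hlt
  exact_mod_cast Set.ncard_le_ncard h2 (TH910.Voj.finite_sub _ _ _)

end Pool.Agent.Results.MP_8865d3_nt.EveryCover
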